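import Pool.Agent.Work.MP_c4d6c8_mp.Final

set_option autoImplicit false

namespace Pool.Agent.Results.MP_c4d6c8_mp.Evenness

open Pool.Agent.Work.MP_c4d6c8_mp

/-- Let `P` be a deformation of the Riemann hierarchy whose first flow is in normal form with
`a = 0` and `c_2 ≠ 0`. Then `c_λ = 0` for every partition `λ` of an odd number with all parts
at least `2`. -/
theorem result (P : ℕ → DiffSeries) (c : (k : ℕ) → Nat.Partition k → PowerSeries ℂ)
    (hP : IsDeformation P) (hN : IsNormalForm (P 1) 0 c)
    (hc : c 2 (Nat.Partition.indiscrete 2) ≠ 0) :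
    ∀ (k : ℕ) (p : Nat.Partition k), Odd k → (∀ i ∈ p.parts, 2 ≤ i) → c k p = 0 :=
  fun k p hk hp => evenness P c hP hN hc k p hk hp

end Pool.Agent.Results.MP_c4d6c8_mp.Evenness
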